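import Mathlib

section

namespace Pool.Agent.MP_888de5_co

open Function Finset

/-- A key for which the classes of a chain of equivalence relations are convex. -/
theorem exists_key {α : Type} [Fintype α] (r : ℕ → α → α → Prop) (hr : ∀ i, Equivalence (r i))
    (hm : ∀ i j, i ≤ j → ∀ x y, r i x y → r j x y) (s : ℕ) :
    ∃ κ : α → ℕ, Injective κ ∧
      ∀ i < s, ∀ x y z, r i x y → κ x ≤ κ z → κ z ≤ κ y → r i x z := by
  classical
  induction s with
  | zero =>
    refine ⟨fun x => (Fintype.equivFin α x : ℕ), ?_, fun i hi => absurd hi (Nat.not_lt_zero i)⟩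
    exact Fin.val_injective.comp (Fintype.equivFin α).injective
  | succ s ih =>
    obtain ⟨κ, hκ, hc⟩ := ih
    let R : Setoid α := ⟨r s, hr s⟩
    let idx : α → ℕ := fun x => κ (Quotient.mk R x).out
    have hidx : ∀ x y, idx x = idx y ↔ r s x y := by
      intro x y
      constructor
      · intro h
        exact Quotient.exact (Quotient.out_injective (hκ h))
      · intro h
        have : Quotient.mk R x = Quotient.mk R y := Quotient.sound h
        simp only [idx, this]
    obtain ⟨D, hD⟩ : ∃ D, ∀ x, κ x < D :=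
      ⟨univ.sup κ + 1, fun x => Nat.lt_succ_of_le (le_sup (mem_univ x))⟩
    have hle : ∀ x z, idx x * D + κ x ≤ idx z * D + κ z → idx x ≤ idx z := by
      intro x z h
      by_contra hlt
      have h1 : (idx z + 1) * D ≤ idx x * D := Nat.mul_le_mul_right D (by omega)
      have h2 := hD z
      rw [add_mul, one_mul] at h1
      omega
    refine ⟨fun x => idx x * D + κ x, ?_, ?_⟩
    · intro x y h
      have h' : idx x * D + κ x = idx y * D + κ y := h
      have : idx x = idx y := le_antisymm (hle x y h'.le) (hle y x h'.ge)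
      rw [this] at h'
      exact hκ (by omega)
    · intro i hi x y z hxy h1 h2
      have e1 : idx x = idx y := (hidx x y).mpr (hm i s (by omega) x y hxy)
      have e2 : idx x = idx z := le_antisymm (hle x z h1) (e1 ▸ hle z y h2)
      rcases Nat.lt_succ_iff_lt_or_eq.mp hi with hi | rfl
      · dsimp only at h1 h2
        rw [← e2] at h1
        rw [← e2, ← e1] at h2
        exact hc i hi x y z hxy (by omega) (by omega)
      · exact (hidx x z).mp e2

/-- A numbering of a finite group in which the cosets of a chain of subgroups are intervals. -/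
theorem exists_pos {G : Type} [AddCommGroup G] [Fintype G] (H : ℕ → AddSubgroup G)
    (hH : Monotone H) (s : ℕ) :
    ∃ pos : G → ℕ, Injective pos ∧ (∀ x, pos x < Fintype.card G) ∧
      ∀ i < s, ∀ x y, x - y ∈ H i → pos x + 1 ≤ pos y + Nat.card (H i) := by
  classical
  obtain ⟨κ, hκ, hc⟩ := exists_key (fun i x y => x - y ∈ H i)
    (fun i => ⟨fun x => by simp, fun {x y} h => by simpa using (H i).neg_mem h,
      fun {x y z} h1 h2 => by simpa using (H i).add_mem h1 h2⟩)
    (fun i j hij x y h => hH hij h) s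
  have hlt : ∀ x y, κ x < κ y →
      (univ.filter fun z => κ z < κ x).card < (univ.filter fun z => κ z < κ y).card := by
    intro x y h
    refine card_lt_card ⟨fun z hz => ?_, fun hs => ?_⟩
    · simp only [mem_filter, mem_univ, true_and] at hz ⊢
      omega
    · have := hs (mem_filter.mpr ⟨mem_univ x, h⟩)
      simp at this
  refine ⟨fun x => (univ.filter fun z => κ z < κ x).card, ?_, ?_, ?_⟩
  · intro x y h
    rcases lt_trichotomy (κ x) (κ y) with h1 | h1 | h1
    · exact absurd h (hlt x y h1).ne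
    · exact hκ h1
    · exact absurd h (hlt y x h1).ne'
  · intro x
    refine card_lt_card ⟨subset_univ _, fun hs => ?_⟩
    have := hs (mem_univ x)
    simp at this
  · intro i hi x y hxy
    have hyx : y - x ∈ H i := by simpa using (H i).neg_mem hxy
    have h1 : (univ.filter fun z => y - z ∈ H i).card = Nat.card (H i) := by
      rw [Nat.card_eq_fintype_card, Fintype.card_subtype]
      refine card_nbij' (fun z => y - z) (fun z => y - z) ?_ ?_ ?_ ?_
      · intro z hz
        simpa using hz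
      · intro z hz
        simpa using hz
      · intro z _
        simp
      · intro z _
        simp
    have h2 : insert x (univ.filter fun z => κ z < κ x) ⊆
        (univ.filter fun z => κ z < κ y) ∪ (univ.filter fun z => y - z ∈ H i) := by
      intro z hz
      have hz' : κ z ≤ κ x := by
        rcases mem_insert.mp hz with rfl | hz
        · exact le_rfl
        · exact (mem_filter.mp hz).2.le
      simp only [mem_union, mem_filter, mem_univ, true_and]
      by_cases h : κ z < κ y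
      · exact Or.inl h
      · exact Or.inr (hc i hi y x z hyx (by omega) hz')
    have h3 := (card_le_card h2).trans (card_union_le _ _)
    rw [card_insert_of_notMem (by simp), h1] at h3
    exact h3

/-- A nonempty fibre of an additive map is large. -/
theorem card_le_fiber {A B : Type} [AddCommGroup A] [Fintype A] [AddCommGroup B] [DecidableEq B]
    (ψ : A →+ B) (T : Finset B) (hT : ∀ x, ψ x ∈ T) (x0 : A) :
    Fintype.card A ≤ (univ.filter fun x => ψ x = ψ x0).card * T.card := by
  classical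
  refine card_le_mul_card_image_of_maps_to (s := univ) (f := ψ) (fun x _ => hT x) _ ?_
  intro b _
  rcases (univ.filter fun x => ψ x = b).eq_empty_or_nonempty with h | ⟨x1, hx1⟩
  · rw [h]; simp
  · have hb : ψ x1 = b := (mem_filter.mp hx1).2
    refine card_le_card_of_injOn (fun x => x - x1 + x0) ?_ ?_
    · intro x hx
      have hx' : ψ x = b := by simpa using hx
      simp [hx', hb]
    · intro x _ y _ h
      simpa using h

end Pool.Agent.MP_888de5_co

end

section

namespace Pool.Agent.MP_888de5_co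

open Function

/-- A strictly increasing tower of finite fields of characteristic three. -/
structure Tower (Ω : Type) [Field Ω] where
  F : ℕ → Subfield Ω
  fin : ∀ n, Finite (F n)
  mono : Monotone F
  p : ℕ → Ω →+ Ω
  p_mem : ∀ n x, p n x ∈ F n
  p_id : ∀ n x, x ∈ F n → p n x = x
  p_mul : ∀ n h x, h ∈ F n → p n (h * x) = h * p n x
  φ : ℕ → Ω →+ ZMod 3
  φ_zero : ∀ n x, x ∈ F n → φ (n + 1) x = 0
  φ_one : ∀ n, ∃ x ∈ F (n + 1), φ (n + 1) x = 1
  two : (2 : Ω) ≠ 0

theorem exists_tower : Nonempty (Tower (AlgebraicClosure (ZMod 3))) := by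
  classical
  haveI : Fact (Nat.Prime 3) := ⟨by norm_num⟩
  set Ω := AlgebraicClosure (ZMod 3)
  have hfin : ∀ E : IntermediateField (ZMod 3) Ω, FiniteDimensional (ZMod 3) E → Finite E :=
    fun E _ => Module.finite_of_finite (ZMod 3)
  have step : ∀ E : {E : IntermediateField (ZMod 3) Ω // FiniteDimensional (ZMod 3) E},
      ∃ E' : {E : IntermediateField (ZMod 3) Ω // FiniteDimensional (ZMod 3) E},
        E.1 ≤ E'.1 ∧ ∃ φ : Ω →+ ZMod 3, (∀ x ∈ E.1, φ x = 0) ∧ ∃ x ∈ E'.1, φ x = 1 := by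
    rintro ⟨E, hE⟩
    haveI := hfin E hE
    obtain ⟨α, hα⟩ : ∃ α : Ω, α ∉ E := by
      by_contra hne
      push Not at hne
      haveI : Finite Ω := Finite.of_surjective (fun x : E => (x : Ω)) fun y => ⟨⟨y, hne y⟩, rfl⟩
      exact not_finite Ω
    haveI : FiniteDimensional (ZMod 3) (IntermediateField.adjoin (ZMod 3) {α}) :=
      IntermediateField.adjoin.finiteDimensional (Algebra.IsIntegral.isIntegral α)
    obtain ⟨f, hf1, hf2⟩ := Submodule.exists_le_ker_of_notMem
      (p := Subalgebra.toSubmodule E.toSubalgebra) (v := α) hα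
    refine ⟨⟨E ⊔ IntermediateField.adjoin (ZMod 3) {α}, inferInstance⟩, le_sup_left,
      ((f α)⁻¹ • f).toAddMonoidHom, fun x hx => ?_, α, ?_, ?_⟩
    · have : f x = 0 := hf2 hx
      simp [this]
    · exact (le_sup_right : IntermediateField.adjoin (ZMod 3) {α} ≤ _)
        (IntermediateField.mem_adjoin_simple_self _ _)
    · simp [inv_mul_cancel₀ hf1]
  choose nxt hle φ hφ0 hφ1 using step
  let E : ℕ → {E : IntermediateField (ZMod 3) Ω // FiniteDimensional (ZMod 3) E} :=
    fun n => Nat.rec ⟨⊥, inferInstance⟩ (fun _ E => nxt E) n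
  have proj : ∀ K : IntermediateField (ZMod 3) Ω, ∃ p : Ω →+ Ω, (∀ x, p x ∈ K) ∧
      (∀ x ∈ K, p x = x) ∧ ∀ h x, h ∈ K → p (h * x) = h * p x := by
    intro K
    obtain ⟨g, hg⟩ := LinearMap.exists_leftInverse_of_injective (Algebra.linearMap K Ω)
      (LinearMap.ker_eq_bot.mpr (algebraMap K Ω).injective)
    refine ⟨((Algebra.linearMap K Ω).comp g).toAddMonoidHom, fun x => (g x).2, fun x hx => ?_,
      fun h x hh => ?_⟩
    · exact congrArg Subtype.val (LinearMap.congr_fun hg ⟨x, hx⟩)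
    · exact ((Algebra.linearMap K Ω).comp g).map_smul (⟨h, hh⟩ : K) x
  choose p hp1 hp2 hp3 using proj
  refine ⟨{
    F := fun n => (E n).1.toSubfield
    fin := fun n => hfin _ (E n).2
    mono := monotone_nat_of_le_succ fun n => hle (E n)
    p := fun n => p (E n).1
    p_mem := fun n => hp1 _
    p_id := fun n => hp2 _
    p_mul := fun n => hp3 _
    φ := fun n => φ (E (n - 1))
    φ_zero := fun n => hφ0 (E n)
    φ_one := fun n => hφ1 (E n)
    two := ?_ }⟩
  intro h
  have h2 : ((2 : ℕ) : Ω) = 0 := by exact_mod_cast h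
  rw [CharP.cast_eq_zero_iff Ω 3] at h2
  omega

namespace Tower

variable {Ω : Type} [Field Ω] (T : Tower Ω)

/-- Compatible projections onto the fields of the tower up to level `M`. -/
structure Proj (M : ℕ) (π : ℕ → Ω →+ Ω) : Prop where
  mem : ∀ n ≤ M, ∀ x, π n x ∈ T.F n
  id : ∀ n ≤ M, ∀ x ∈ T.F n, π n x = x
  mul : ∀ n ≤ M, ∀ h x, h ∈ T.F n → π n (h * x) = h * π n x
  comp : ∀ j n, j ≤ n → n ≤ M → ∀ x, π j (π n x) = π j x

theorem exists_proj (M : ℕ) : ∃ π, T.Proj M π := by
  induction M with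
  | zero =>
    refine ⟨T.p, fun n _ => T.p_mem n, fun n _ => T.p_id n, fun n _ => T.p_mul n, ?_⟩
    intro j n hj hn x
    obtain rfl : n = 0 := by omega
    obtain rfl : j = 0 := by omega
    exact T.p_id _ _ (T.p_mem _ _)
  | succ M ih =>
    obtain ⟨π, h⟩ := ih
    refine ⟨fun n => if n ≤ M then (π n).comp (T.p (M + 1)) else T.p (M + 1), ?_, ?_, ?_, ?_⟩
    · intro n hn x
      by_cases hM : n ≤ M
      · simp only [if_pos hM]
        exact h.mem n hM _
      · obtain rfl : n = M + 1 := by omega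
        simp only [if_neg hM]
        exact T.p_mem _ _
    · intro n hn x hx
      by_cases hM : n ≤ M
      · simp only [if_pos hM, AddMonoidHom.comp_apply]
        rw [T.p_id _ _ (T.mono hn hx), h.id n hM x hx]
      · obtain rfl : n = M + 1 := by omega
        simp only [if_neg hM]
        exact T.p_id _ _ hx
    · intro n hn a x ha
      by_cases hM : n ≤ M
      · simp only [if_pos hM, AddMonoidHom.comp_apply]
        rw [T.p_mul _ _ _ (T.mono hn ha), h.mul n hM _ _ ha]
      · obtain rfl : n = M + 1 := by omega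
        simp only [if_neg hM]
        exact T.p_mul _ _ _ ha
    · intro j n hj hn x
      by_cases hM : n ≤ M
      · simp only [if_pos hM, if_pos (hj.trans hM), AddMonoidHom.comp_apply]
        rw [T.p_id _ _ (T.mono hn (h.mem n hM _)), h.comp j n hj hM]
      · by_cases hM' : j ≤ M
        · simp only [if_neg hM, if_pos hM', AddMonoidHom.comp_apply]
          rw [T.p_id _ _ (T.p_mem _ _)]
        · simp only [if_neg hM, if_neg hM']
          rw [T.p_id _ _ (T.p_mem _ _)]

theorem φ_lt {j n : ℕ} (h : j < n) {x : Ω} (hx : x ∈ T.F j) : T.φ n x = 0 := by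
  obtain ⟨m, rfl⟩ : ∃ m, n = m + 1 := ⟨n - 1, by omega⟩
  exact T.φ_zero m x (T.mono (by omega) hx)

end Tower

end Pool.Agent.MP_888de5_co

end

section

namespace Pool.Agent.MP_888de5_co

open Function Finset

namespace Tower

variable {Ω : Type} [Field Ω] (T : Tower Ω)

/-- The size of the `n`-th field. -/
noncomputable def f (n : ℕ) : ℕ := Nat.card (T.F n)

theorem f_pos (n : ℕ) : 0 < T.f n := by
  have := T.fin n
  exact Nat.card_pos

/-- A system of levels, each with a base level and a label in the base field. -/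
structure Levels (M : ℕ) {ι : Type} (lev bas : ι → ℕ) (lab : ι → Ω) : Prop where
  inj : Injective lev
  lt : ∀ i, bas i < lev i
  le : ∀ i, lev i ≤ M
  mem : ∀ i, lab i ∈ T.F (bas i)
  two : ∀ i, T.φ (bas i) (lab i) = 2
  sep : ∀ i j, lev j < lev i → lev j ≤ bas i ∨ (bas j = bas i ∧ lab j ≠ lab i)

theorem exists_levels (B : ℕ) : ∃ (M : ℕ) (ι : Type) (_ : Fintype ι) (lev bas : ι → ℕ)
    (lab : ι → Ω), 1 ≤ M ∧ T.Levels M lev bas lab ∧ (B : ℝ) / 3 ≤ ∑ i, 1 / (T.f (bas i) : ℝ) := by
  classical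
  induction B with
  | zero =>
    exact ⟨1, Empty, inferInstance, fun i => i.elim, fun i => i.elim, fun i => i.elim, le_rfl,
      ⟨fun i => i.elim, fun i => i.elim, fun i => i.elim, fun i => i.elim, fun i => i.elim,
        fun i => i.elim⟩, by simp⟩
  | succ B ih =>
    obtain ⟨M, ι, _, lev, bas, lab, hM, h, hs⟩ := ih
    have := T.fin M
    have : Fintype (T.F M) := Fintype.ofFinite _
    obtain ⟨m, rfl⟩ : ∃ m, M = m + 1 := ⟨M - 1, by omega⟩
    obtain ⟨e, he, he1⟩ := T.φ_one m
    let ψ : T.F (m + 1) →+ ZMod 3 := (T.φ (m + 1)).comp (T.F (m + 1)).subtype.toAddMonoidHom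
    have hψ : ψ ⟨e + e, add_mem he he⟩ = 2 := by
      change T.φ (m + 1) (e + e) = 2
      rw [map_add, he1]; rfl
    have hc := card_le_fiber ψ univ (fun _ => mem_univ _) ⟨e + e, add_mem he he⟩
    rw [hψ, card_univ, ZMod.card] at hc
    set L := univ.filter fun x => ψ x = 2 with hL
    let g : Fin L.card ≃ L := L.equivFin.symm
    refine ⟨m + 1 + L.card, ι ⊕ Fin L.card, inferInstance,
      Sum.elim lev fun k => m + 2 + k, Sum.elim bas fun _ => m + 1,
      Sum.elim lab fun k => ((g k).1 : Ω), by omega, ⟨?_, ?_, ?_, ?_, ?_, ?_⟩, ?_⟩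
    · rintro (i | i) (j | j) hij <;> simp only [Sum.elim_inl, Sum.elim_inr] at hij
      · rw [h.inj hij]
      · have := h.le i; omega
      · have := h.le j; omega
      · rw [Fin.ext (show (i : ℕ) = j by omega)]
    · rintro (i | i)
      · exact h.lt i
      · simp only [Sum.elim_inr]; omega
    · rintro (i | i)
      · have := h.le i; simp only [Sum.elim_inl]; omega
      · have := i.2; simp only [Sum.elim_inr]; omega
    · rintro (i | i)
      · exact h.mem i
      · exact (g i).1.2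
    · rintro (i | i)
      · exact h.two i
      · exact (mem_filter.mp (g i).2).2
    · rintro (i | i) (j | j) hij <;> simp only [Sum.elim_inl, Sum.elim_inr] at hij ⊢
      · exact h.sep i j hij
      · have := h.le i; omega
      · exact Or.inl (h.le j)
      · refine Or.inr ⟨trivial, fun hh => ?_⟩
        have := g.injective (Subtype.ext (Subtype.ext hh))
        subst this
        omega
    · rw [Fintype.sum_sum_type]
      simp only [Sum.elim_inl, Sum.elim_inr, sum_const, card_univ, Fintype.card_fin, nsmul_eq_mul]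
      have h1 : (T.f (m + 1) : ℝ) ≤ L.card * 3 := by
        rw [f, Nat.card_eq_fintype_card]
        exact_mod_cast hc
      have h2 : (0 : ℝ) < T.f (m + 1) := by exact_mod_cast T.f_pos _
      have h3 : (1 : ℝ) / 3 ≤ L.card * (1 / T.f (m + 1)) := by
        rw [mul_one_div, div_le_div_iff₀ (by norm_num) h2]
        linarith
      push_cast
      linarith

variable {T} {M : ℕ} {π : ℕ → Ω →+ Ω} {ι : Type} {lev bas : ι → ℕ} {lab : ι → Ω}

/-- The points of level `i`. -/
structure At (T : Tower Ω) (π : ℕ → Ω →+ Ω) (lev bas : ι → ℕ) (lab : ι → Ω) (i : ι) (X v : Ω) :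
    Prop where
  mem : X ∈ T.F (lev i)
  one : T.φ (lev i) X = 1
  lab : π (bas i) X = lab i
  sq : π (lev i) v = X ^ 2

theorem two_low (hP : T.Proj M π) (hL : T.Levels M lev bas lab) {i j k : ι}
    {Xa va Xb vb Xc vc Xd vd : Ω} (ha : At T π lev bas lab i Xa va)
    (hb : At T π lev bas lab i Xb vb) (hc : At T π lev bas lab j Xc vc)
    (hd : At T π lev bas lab k Xd vd) (hj : lev j < lev i) (hk : lev k < lev i)
    (hX : Xa - Xb = Xc - Xd) (hv : va - vb = vc - vd) : Xa = Xb := by
  have hbM : bas i ≤ M := (hL.lt i).le.trans (hL.le i)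
  have h0 : π (bas i) Xc = π (bas i) Xd := by
    rw [← sub_eq_zero, ← map_sub, ← hX, map_sub, ha.lab, hb.lab, sub_self]
  have old : ∀ {l : ι} {X v : Ω}, At T π lev bas lab l X v → lev l ≤ bas i →
      π (bas i) X = X ∧ T.φ (bas i) X ≠ 2 := by
    intro l X v h hl
    refine ⟨hP.id _ hbM _ (T.mono hl h.mem), ?_⟩
    rcases hl.lt_or_eq with hl | hl
    · rw [T.φ_lt hl h.mem]; decide
    · rw [← hl, h.one]; decide
  rcases hL.sep i j hj with h1 | ⟨h1, h1'⟩ <;> rcases hL.sep i k hk with h2 | ⟨h2, h2'⟩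
  · rw [(old hc h1).1, (old hd h2).1] at h0
    rw [← sub_eq_zero, hX, h0, sub_self]
  · rw [(old hc h1).1, ← h2, hd.lab] at h0
    exact absurd (by rw [h0, ← h2, hL.two]) (old hc h1).2
  · rw [(old hd h2).1, ← h1, hc.lab] at h0
    exact absurd (by rw [← h0, ← h1, hL.two]) (old hd h2).2
  · have h3 : lab j = lab k := by rw [← hc.lab, ← hd.lab, h1, h2, h0]
    have hjk : j = k := by
      apply hL.inj
      have e1 := hL.lt j
      have e2 := hL.lt k
      rcases lt_trichotomy (lev j) (lev k) with h | h | h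
      · rcases hL.sep k j h with h4 | h4
        · omega
        · exact absurd h3 h4.2
      · exact h
      · rcases hL.sep j k h with h4 | h4
        · omega
        · exact absurd h3.symm h4.2
    subst hjk
    by_contra hne
    have hh : Xa - Xb ≠ 0 := sub_ne_zero.mpr hne
    have hmem : Xa - Xb ∈ T.F (lev j) := by rw [hX]; exact sub_mem hc.mem hd.mem
    have e1 : π (lev i) (va - vb) = (Xa - Xb) * (Xa + Xb) := by
      rw [map_sub, ha.sq, hb.sq]; ring
    have e2 : π (lev j) (va - vb) = (Xa - Xb) * (Xc + Xd) := by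
      rw [hv, map_sub, hc.sq, hd.sq, hX]; ring
    have e3 : π (lev j) (Xa + Xb) = Xc + Xd := by
      apply mul_left_cancel₀ hh
      rw [← hP.mul _ (hL.le j) _ _ hmem, ← e1, hP.comp _ _ hj.le (hL.le i), e2]
    have e4 := congrArg (π (bas i)) e3
    rw [hP.comp _ _ (h1 ▸ (hL.lt j).le) (hL.le j), map_add, map_add, ha.lab, hb.lab, ← h1, hc.lab,
      hd.lab] at e4
    apply h1'
    apply mul_left_cancel₀ T.two
    linear_combination -e4

/-- The multi-scale Sidon property. -/
theorem sidon (hP : T.Proj M π) (hL : T.Levels M lev bas lab) {ia ib ic id : ι}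
    {Xa va Xb vb Xc vc Xd vd : Ω} (ha : At T π lev bas lab ia Xa va)
    (hb : At T π lev bas lab ib Xb vb) (hc : At T π lev bas lab ic Xc vc)
    (hd : At T π lev bas lab id Xd vd) (hX : Xa + Xd = Xb + Xc) (hv : va + vd = vb + vc) :
    ∃ n ≤ M, (Xa = Xb ∧ π n (va - vb) = 0 ∧ Xa - Xc ∈ T.F n) ∨
      (Xa = Xc ∧ π n (va - vc) = 0 ∧ Xa - Xb ∈ T.F n) := by
  obtain ⟨i, hi, h1, h2, h3, h4⟩ : ∃ i, (ia = i ∨ ib = i ∨ ic = i ∨ id = i) ∧ lev ia ≤ lev i ∧
      lev ib ≤ lev i ∧ lev ic ≤ lev i ∧ lev id ≤ lev i := by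
    by_contra hne
    push Not at hne
    have e1 := hne ia (by simp) le_rfl
    have e2 := hne ib (by simp)
    have e3 := hne ic (by simp)
    have e4 := hne id (by simp)
    omega
  have key : ∀ {l : ι} {X v : Ω}, At T π lev bas lab l X v → lev l ≤ lev i →
      X ∈ T.F (lev i) ∧ ((l = i ∧ T.φ (lev i) X = 1) ∨ (lev l < lev i ∧ T.φ (lev i) X = 0)) := by
    intro l X v h hl
    refine ⟨T.mono hl h.mem, ?_⟩
    rcases hl.lt_or_eq with hl | hl
    · exact Or.inr ⟨hl, T.φ_lt hl h.mem⟩
    · exact Or.inl ⟨hL.inj hl, hl ▸ h.one⟩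
  obtain ⟨ma, ka⟩ := key ha h1
  obtain ⟨mb, kb⟩ := key hb h2
  obtain ⟨mc, kc⟩ := key hc h3
  obtain ⟨md, kd⟩ := key hd h4
  have hφ := congrArg (T.φ (lev i)) hX
  rw [map_add, map_add] at hφ
  have sq0 : ∀ {X v X' v' : Ω}, At T π lev bas lab i X v → At T π lev bas lab i X' v' → X = X' →
      π (lev i) (v - v') = 0 := fun h h' e => by rw [map_sub, h.sq, h'.sq, e, sub_self]
  refine ⟨lev i, hL.le i, ?_⟩
  rcases ka with ⟨rfl, ka⟩ | ⟨la, ka⟩ <;> rcases kb with ⟨eb, kb⟩ | ⟨lb, kb⟩ <;>
    rcases kc with ⟨ec, kc⟩ | ⟨lc, kc⟩ <;> rcases kd with ⟨ed, kd⟩ | ⟨ld, kd⟩ <;>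
    rw [ka, kb, kc, kd] at hφ <;> try exact absurd hφ (by decide)
  · subst eb ec ed
    have e := congrArg (π (lev id)) hv
    rw [map_add, map_add, ha.sq, hb.sq, hc.sq, hd.sq] at e
    have e2 : 2 * ((Xa - Xb) * (Xa - Xc)) = 0 := by
      have : Xd = Xb + Xc - Xa := by linear_combination hX
      subst this
      linear_combination e
    rcases mul_eq_zero.mp ((mul_eq_zero.mp e2).resolve_left T.two) with h | h
    · exact Or.inl ⟨sub_eq_zero.mp h, sq0 ha hb (sub_eq_zero.mp h), sub_mem ma mc⟩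
    · exact Or.inr ⟨sub_eq_zero.mp h, sq0 ha hc (sub_eq_zero.mp h), sub_mem ma mb⟩
  · subst eb
    have := two_low hP hL ha hb hc hd lc ld (by linear_combination hX) (by linear_combination hv)
    exact Or.inl ⟨this, sq0 ha hb this, sub_mem ma mc⟩
  · subst ec
    have := two_low hP hL ha hc hb hd lb ld (by linear_combination hX) (by linear_combination hv)
    exact Or.inr ⟨this, sq0 ha hc this, sub_mem ma mb⟩
  · subst eb
    subst ed
    have := two_low hP hL hd hb hc ha lc la (by linear_combination hX) (by linear_combination hv)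
    refine Or.inr ⟨by linear_combination hX - this, ?_, sub_mem ma mb⟩
    rw [show va - vc = -(vd - vb) by linear_combination hv, map_neg, sq0 hd hb this, neg_zero]
  · subst ec
    subst ed
    have := two_low hP hL hd hc hb ha lb la (by linear_combination hX) (by linear_combination hv)
    refine Or.inl ⟨by linear_combination hX - this, ?_, sub_mem ma mc⟩
    rw [show va - vb = -(vd - vc) by linear_combination hv, map_neg, sq0 hd hc this, neg_zero]
  · rcases hi with rfl | rfl | rfl | rfl <;> omega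

end Tower

end Pool.Agent.MP_888de5_co

end

section

namespace Pool.Agent.MP_888de5_co

open Function Finset

namespace Tower

variable {Ω : Type} [Field Ω] {T : Tower Ω} {M : ℕ} {π : ℕ → Ω →+ Ω} {ι : Type}
  {lev bas : ι → ℕ} {lab : ι → Ω}

/-- The elements of the top field that lie in the `n`-th field. -/
def sub (T : Tower Ω) (M n : ℕ) : AddSubgroup (T.F M) :=
  (T.F n).toAddSubgroup.comap (T.F M).subtype.toAddMonoidHom

/-- The kernel of the `n`-th projection on the top field. -/
def kr (T : Tower Ω) (M : ℕ) (π : ℕ → Ω →+ Ω) (n : ℕ) : AddSubgroup (T.F M) :=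
  ((π n).comp (T.F M).subtype.toAddMonoidHom).ker

theorem mem_sub {n : ℕ} {x : T.F M} : x ∈ sub T M n ↔ (x : Ω) ∈ T.F n := Iff.rfl

theorem mem_kr {n : ℕ} {x : T.F M} : x ∈ kr T M π n ↔ π n x = 0 := Iff.rfl

theorem card_sub (n : ℕ) : Nat.card (sub T M n) ≤ T.f n := by
  have := T.fin n
  refine Nat.card_le_card_of_injective (fun x : sub T M n => (⟨x.1.1, x.2⟩ : T.F n)) ?_
  intro x y h
  exact Subtype.ext (Subtype.ext (congrArg (fun z : T.F n => (z : Ω)) h))

theorem card_kr_le (hP : T.Proj M π) {n : ℕ} (hn : n ≤ M) :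
    Nat.card (kr T M π n) * T.f n ≤ T.f M := by
  have := T.fin M
  rw [f, ← Nat.card_prod]
  refine Nat.card_le_card_of_injective
    (fun x : kr T M π n × T.F n => (x.1.1 + ⟨x.2.1, T.mono hn x.2.2⟩ : T.F M)) ?_
  rintro ⟨k, x⟩ ⟨k', x'⟩ h
  have h1 : (k.1 : Ω) + x = k'.1 + x' := congrArg Subtype.val h
  have h2 := congrArg (π n) h1
  rw [map_add, map_add, mem_kr.mp k.2, mem_kr.mp k'.2, hP.id n hn _ x.2, hP.id n hn _ x'.2,
    zero_add, zero_add] at h2
  rw [h2, add_left_inj] at h1
  exact Prod.ext (Subtype.ext (Subtype.ext h1)) (Subtype.ext h2)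

theorem exists_finset (T : Tower Ω) (n : ℕ) :
    ∃ s : Finset Ω, (∀ x, x ∈ T.F n → x ∈ s) ∧ s.card = T.f n := by
  classical
  have := T.fin n
  have : Fintype (T.F n) := Fintype.ofFinite _
  refine ⟨univ.map ⟨(Subtype.val : T.F n → Ω), Subtype.val_injective⟩, fun x hx => ?_, ?_⟩
  · exact mem_map.mpr ⟨⟨x, hx⟩, mem_univ _, rfl⟩
  · rw [card_map, card_univ, f, Nat.card_eq_fintype_card]

open Classical in
theorem card_level [Fintype (T.F M)] (hP : T.Proj M π) (hL : T.Levels M lev bas lab) (i : ι) :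
    T.f M ≤ (univ.filter fun x : T.F M × T.F M => At T π lev bas lab i x.1 x.2).card *
      (T.f (bas i) * 3) := by
  have hn := hL.le i
  have hb := hL.lt i
  have := T.fin (lev i)
  have : Fintype (T.F (lev i)) := Fintype.ofFinite _
  obtain ⟨m, hm⟩ : ∃ m, lev i = m + 1 := ⟨lev i - 1, by omega⟩
  obtain ⟨e, he, he1⟩ := T.φ_one m
  rw [← hm] at he he1
  obtain ⟨sb, hsb, csb⟩ := T.exists_finset (bas i)
  obtain ⟨sn, hsn, csn⟩ := T.exists_finset (lev i)
  have hpe : π m e ∈ T.F m := hP.mem m (by omega) e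
  have hx0 : lab i + (e - π m e) ∈ T.F (lev i) :=
    add_mem (T.mono hb.le (hL.mem i)) (sub_mem he (T.mono (by omega) hpe))
  let ψ : T.F (lev i) →+ Ω × ZMod 3 :=
    ((π (bas i)).prod (T.φ (lev i))).comp (T.F (lev i)).subtype.toAddMonoidHom
  have hψ : ψ ⟨_, hx0⟩ = (lab i, 1) := by
    change (π (bas i) (lab i + (e - π m e)), T.φ (lev i) (lab i + (e - π m e))) = _
    rw [map_add, map_add, map_sub, map_sub, hP.comp _ _ (by omega) (by omega), sub_self, add_zero,
      hP.id _ (by omega) _ (hL.mem i), T.φ_lt hb (hL.mem i), he1, T.φ_lt (by omega) hpe]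
    simp
  have h1 := card_le_fiber ψ (sb ×ˢ univ)
    (fun x => mem_product.mpr ⟨hsb _ (hP.mem _ (by omega) _), mem_univ _⟩) ⟨_, hx0⟩
  rw [hψ, card_product, csb, card_univ, ZMod.card] at h1
  let χ : T.F M →+ Ω := (π (lev i)).comp (T.F M).subtype.toAddMonoidHom
  have h2 := card_le_fiber χ sn (fun x => hsn _ (hP.mem _ hn _)) 0
  rw [map_zero, csn] at h2
  set D := univ.filter fun x => ψ x = (lab i, 1)
  set R := univ.filter fun x => χ x = 0
  have h3 : (D ×ˢ R).card ≤
      (univ.filter fun x : T.F M × T.F M => At T π lev bas lab i x.1 x.2).card := by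
    refine card_le_card_of_injOn
      (fun x => (⟨x.1.1, T.mono hn x.1.2⟩, ⟨x.1.1, T.mono hn x.1.2⟩ ^ 2 + x.2)) ?_ ?_
    · rintro ⟨X, k⟩ hx
      have hx' := mem_product.mp (mem_coe.mp hx)
      have e1 : (π (bas i) X, T.φ (lev i) X) = (lab i, 1) := (mem_filter.mp hx'.1).2
      have e2 : π (lev i) k = 0 := (mem_filter.mp hx'.2).2
      refine mem_coe.mpr (mem_filter.mpr ⟨mem_univ _, X.2, (Prod.mk.inj e1).2, (Prod.mk.inj e1).1,
        ?_⟩)
      change π (lev i) ((X : Ω) ^ 2 + k) = (X : Ω) ^ 2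
      rw [map_add, e2, add_zero, hP.id _ hn _ (pow_mem X.2 2)]
    · rintro ⟨X, k⟩ _ ⟨X', k'⟩ _ h
      have e1 : X = X' := Subtype.ext (congrArg (fun x => (x.1 : Ω)) h)
      subst e1
      have e2 : k = k' := add_left_cancel (congrArg Prod.snd h)
      rw [e2]
  rw [card_product] at h3
  have e1 : T.f M = Fintype.card (T.F M) := Nat.card_eq_fintype_card
  have e2 : T.f (lev i) = Fintype.card (T.F (lev i)) := Nat.card_eq_fintype_card
  rw [← e1] at h2
  rw [← e2] at h1
  calc T.f M ≤ R.card * T.f (lev i) := h2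
    _ ≤ R.card * (D.card * (T.f (bas i) * 3)) := Nat.mul_le_mul_left _ h1
    _ = D.card * R.card * (T.f (bas i) * 3) := by ring
    _ ≤ _ := Nat.mul_le_mul_right _ h3

open Classical in
theorem card_all [Fintype (T.F M)] [Fintype ι] (hP : T.Proj M π) (hL : T.Levels M lev bas lab) :
    (T.f M : ℝ) / 3 * ∑ i, 1 / (T.f (bas i) : ℝ) ≤
      (univ.filter fun x : T.F M × T.F M => ∃ i, At T π lev bas lab i x.1 x.2).card := by
  have h1 : (univ.filter fun x : T.F M × T.F M => ∃ i, At T π lev bas lab i x.1 x.2) =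
      univ.biUnion fun i => univ.filter fun x : T.F M × T.F M => At T π lev bas lab i x.1 x.2 := by
    ext x
    simp
  rw [h1, card_biUnion, mul_sum]
  · push_cast
    refine sum_le_sum fun i _ => ?_
    have h2 : (0 : ℝ) < T.f (bas i) := by exact_mod_cast T.f_pos _
    have h3 : (T.f M : ℝ) ≤ (univ.filter fun x : T.F M × T.F M =>
        At T π lev bas lab i x.1 x.2).card * (T.f (bas i) * 3) := by
      exact_mod_cast card_level hP hL i
    rw [div_mul_div_comm, mul_one, div_le_iff₀ (by positivity)]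
    linarith
  · intro i _ j _ hij
    rw [Function.onFun, disjoint_filter]
    intro x _ h1 h2
    rcases lt_trichotomy (lev i) (lev j) with h | h | h
    · exact absurd (h2.one.symm.trans (T.φ_lt h h1.mem)) (by decide)
    · exact hij (hL.inj h)
    · exact absurd (h1.one.symm.trans (T.φ_lt h h2.mem)) (by decide)

end Tower

/-- The discrete form of the counterexample: a set `E` of cells of an `N × N` grid all of whose
rectangles have area at most `N`, with `|E| ^ 2 / N ^ 3` as large as we please. -/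
theorem exists_cells (B : ℕ) : ∃ (G : Type) (_ : Fintype G) (pos : G → ℕ) (E : Finset (G × G)),
    0 < Fintype.card G ∧ Injective pos ∧ (∀ x, pos x < Fintype.card G) ∧
    (∀ g1 g2 h1 h2, (g1, h1) ∈ E → (g1, h2) ∈ E → (g2, h1) ∈ E → (g2, h2) ∈ E →
      ∃ a b : ℕ, a * b ≤ Fintype.card G ∧ pos g2 + 1 ≤ pos g1 + a ∧ pos h2 + 1 ≤ pos h1 + b) ∧
    ((B : ℝ) / 9) ^ 2 * (Fintype.card G : ℝ) ^ 3 ≤ (E.card : ℝ) ^ 2 := by
  classical
  obtain ⟨T⟩ := exists_tower
  obtain ⟨M, ι, _, lev, bas, lab, -, hL, hB⟩ := T.exists_levels B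
  obtain ⟨π, hP⟩ := T.exists_proj M
  have := T.fin M
  have : Fintype (T.F M) := Fintype.ofFinite _
  have ef : Fintype.card (T.F M) = T.f M := Nat.card_eq_fintype_card.symm
  have hf := T.f_pos M
  obtain ⟨p1, i1, l1, c1⟩ := exists_pos (Tower.sub T M) (fun i j hij x hx => T.mono hij hx) (M + 1)
  obtain ⟨p2, i2, l2, c2⟩ := exists_pos (fun i => Tower.kr T M π (M - i)) (fun i j hij x hx => by
    rw [Tower.mem_kr] at hx ⊢
    rw [← hP.comp _ (M - i) (by omega) (by omega), hx, map_zero]) (M + 1)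
  rw [ef] at l1 l2
  set S := univ.filter fun x : T.F M × T.F M => ∃ i, Tower.At T π lev bas lab i x.1 x.2 with hS
  have eN : Fintype.card (T.F M × T.F M) = T.f M * T.f M := by rw [Fintype.card_prod, ef]
  have fine : ∀ n ≤ M, ∀ x y : T.F M × T.F M, x.1 = y.1 → π n (x.2 - y.2) = 0 →
      p1 x.1 * T.f M + p2 x.2 + 1 ≤ p1 y.1 * T.f M + p2 y.2 + Nat.card (Tower.kr T M π n) := by
    intro n hn x y h1 h2
    have := c2 (M - n) (by omega) x.2 y.2 (by
      rw [show M - (M - n) = n by omega]; exact h2)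
    rw [show M - (M - n) = n by omega] at this
    rw [h1]
    omega
  have coarse : ∀ n ≤ M, ∀ x y : T.F M × T.F M, ((x.1 : _) - y.1 : AlgebraicClosure (ZMod 3)) ∈
      T.F n → p1 x.1 * T.f M + p2 x.2 + 1 ≤ p1 y.1 * T.f M + p2 y.2 + T.f n * T.f M := by
    intro n hn x y h1
    have h2 := (c1 n (by omega) x.1 y.1 h1).trans (Nat.add_le_add_left (Tower.card_sub n) _)
    have h3 := Nat.mul_le_mul_right (T.f M) h2
    have h4 := l2 x.2
    rw [add_mul, add_mul, one_mul] at h3
    omega
  refine ⟨T.F M × T.F M, inferInstance, fun x => p1 x.1 * T.f M + p2 x.2,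
    univ.filter fun x => x.1 - x.2 ∈ S, by rw [eN]; positivity, ?_, ?_, ?_, ?_⟩
  · intro x y h
    have h' : p1 x.1 * T.f M + p2 x.2 = p1 y.1 * T.f M + p2 y.2 := h
    have e1 := congrArg (· % T.f M) h'
    simp only [Nat.mul_add_mod_of_lt (l2 _)] at e1
    rw [e1, add_left_inj] at h'
    exact Prod.ext (i1 (Nat.eq_of_mul_eq_mul_right hf h')) (i2 e1)
  · intro x
    have h1 := Nat.mul_le_mul_right (T.f M) (Nat.succ_le_of_lt (l1 x.1))
    have h2 := l2 x.2
    rw [Nat.succ_mul] at h1
    rw [eN]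
    dsimp only
    omega
  · intro g1 g2 h1 h2 ha hc hb hd
    simp only [hS, mem_filter, mem_univ, true_and] at ha hb hc hd
    obtain ⟨ia, ha⟩ := ha
    obtain ⟨ib, hb⟩ := hb
    obtain ⟨ic, hc⟩ := hc
    obtain ⟨id, hd⟩ := hd
    obtain ⟨n, hn, h⟩ := Tower.sidon hP hL ha hb hc hd (by simp only [Prod.fst_sub]; push_cast; ring)
      (by simp only [Prod.snd_sub]; push_cast; ring)
    simp only [Prod.fst_sub, Prod.snd_sub] at h
    push_cast at h
    have hk := Nat.mul_le_mul_right (T.f M) (Tower.card_kr_le hP hn)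
    rcases h with ⟨e1, e2, e3⟩ | ⟨e1, e2, e3⟩
    · refine ⟨_, _, ?_, fine n hn g2 g1 (Subtype.ext (by linear_combination -e1)) ?_,
        coarse n hn h2 h1 ?_⟩
      · rw [eN, ← mul_assoc]; exact hk
      · rw [← neg_eq_zero, ← map_neg, ← e2]; congr 1; ring
      · convert e3 using 1; ring
    · refine ⟨_, _, ?_, coarse n hn g2 g1 ?_,
        fine n hn h2 h1 (Subtype.ext (by linear_combination e1)) ?_⟩
      · rw [eN, mul_comm, ← mul_assoc]; exact hk
      · convert neg_mem e3 using 1; ring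
      · rw [← e2]; congr 1; ring
  · have h1 : (univ.filter fun x : (T.F M × T.F M) × (T.F M × T.F M) => x.1 - x.2 ∈ S).card =
        S.card * (T.f M * T.f M) := by
      rw [← eN, ← card_univ, ← card_product]
      refine card_nbij' (fun x => (x.1 - x.2, x.2)) (fun x => (x.1 + x.2, x.2)) ?_ ?_ ?_ ?_
      · intro x hx
        simpa using hx
      · intro x hx
        simpa using hx
      · intro x _
        simp
      · intro x _
        simp
    have h2 := Tower.card_all hP hL
    have h3 : (T.f M : ℝ) * (B / 9) ≤ S.card := by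
      have : (T.f M : ℝ) / 3 * (B / 3) ≤ (T.f M : ℝ) / 3 * ∑ i, 1 / (T.f (bas i) : ℝ) :=
        mul_le_mul_of_nonneg_left hB (by positivity)
      linarith
    have h4 : ((T.f M : ℝ) * (B / 9)) ^ 2 ≤ (S.card : ℝ) ^ 2 :=
      pow_le_pow_left₀ (by positivity) h3 2
    rw [h1, eN]
    push_cast
    calc _ = ((T.f M : ℝ) * (B / 9)) ^ 2 * ((T.f M : ℝ) * T.f M) ^ 2 := by ring
      _ ≤ (S.card : ℝ) ^ 2 * ((T.f M : ℝ) * T.f M) ^ 2 :=
        mul_le_mul_of_nonneg_right h4 (by positivity)
      _ = _ := by ring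

end Pool.Agent.MP_888de5_co

end

section

namespace Pool.Agent.MP_888de5_co

open Function MeasureTheory Set

/-- The open cell number `k` of a subdivision of the unit interval into `N` parts. -/
def cell (N k : ℕ) : Set ℝ := Ioo ((k : ℝ) / N) ((k + 1 : ℝ) / N)

theorem cell_eq {N j k : ℕ} (hN : 0 < N) {x : ℝ} (hj : x ∈ cell N j) (hk : x ∈ cell N k) :
    j = k := by
  have hN' : (0 : ℝ) < N := by exact_mod_cast hN
  have h1 := hj.1.trans hk.2
  have h2 := hk.1.trans hj.2
  rw [div_lt_div_iff_of_pos_right hN'] at h1 h2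
  have h3 : j < k + 1 := by exact_mod_cast h1
  have h4 : k < j + 1 := by exact_mod_cast h2
  omega

theorem cell_sub {N j k a : ℕ} (hN : 0 < N) {x y : ℝ} (hj : x ∈ cell N j) (hk : y ∈ cell N k)
    (h : k + 1 ≤ j + a) : y - x < a / N := by
  have hN' : (0 : ℝ) < N := by exact_mod_cast hN
  have h1 : (k + 1 : ℝ) ≤ j + a := by exact_mod_cast h
  have h2 : (k + 1 : ℝ) / N ≤ j / N + a / N := by
    rw [← add_div]
    exact div_le_div_of_nonneg_right h1 hN'.le
  linarith [hj.1, hk.2]

theorem cell_subset {N k : ℕ} (hk : k < N) : cell N k ⊆ Icc 0 1 := by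
  have hN' : (0 : ℝ) < N := by exact_mod_cast (Nat.zero_le k).trans_lt hk
  intro x hx
  have h1 : (0 : ℝ) ≤ k / N := by positivity
  have h2 : (k + 1 : ℝ) / N ≤ 1 := by
    rw [div_le_one hN']
    exact_mod_cast hk
  exact ⟨h1.trans hx.1.le, hx.2.le.trans h2⟩

theorem volume_cell (N k : ℕ) : volume (cell N k) = ENNReal.ofReal (1 / N) := by
  rw [cell, Real.volume_Ioo]
  congr 1
  ring

theorem no_constant (c : ℝ) (hc : 0 < c) : ∃ A : Set (ℝ × ℝ), IsOpen A ∧
    A ⊆ Icc (0 : ℝ) 1 ×ˢ Icc (0 : ℝ) 1 ∧ A.Nonempty ∧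
    ∀ x₁ x₂ y₁ y₂ : ℝ, x₁ < x₂ → y₁ < y₂ → (x₁, y₁) ∈ A → (x₁, y₂) ∈ A → (x₂, y₁) ∈ A →
      (x₂, y₂) ∈ A → (x₂ - x₁) * (y₂ - y₁) < c * ((volume A).toReal) ^ 2 := by
  classical
  obtain ⟨B, hB⟩ := exists_nat_ge (9 * (1 + 1 / c))
  obtain ⟨G, _, pos, E, hN, hinj, hlt, hrect, hE⟩ := exists_cells B
  set N := Fintype.card G
  have hN' : (0 : ℝ) < N := by exact_mod_cast hN
  have hc' : 0 < 1 / c := by positivity
  have hB1 : 1 / c ≤ ((B : ℝ) / 9) ^ 2 := by nlinarith
  have hE1 : (N : ℝ) ^ 3 ≤ c * (E.card : ℝ) ^ 2 := by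
    have h1 : 1 / c * (N : ℝ) ^ 3 ≤ (E.card : ℝ) ^ 2 :=
      (mul_le_mul_of_nonneg_right hB1 (by positivity)).trans hE
    rw [div_mul_eq_mul_div, one_mul, div_le_iff₀ hc] at h1
    linarith
  have hvol : (volume (⋃ e ∈ E, cell N (pos e.1) ×ˢ cell N (pos e.2))).toReal =
      E.card / (N : ℝ) ^ 2 := by
    rw [measure_biUnion_finset]
    · simp only [Measure.volume_eq_prod, Measure.prod_prod, volume_cell, Finset.sum_const,
        nsmul_eq_mul, ENNReal.toReal_mul, ENNReal.toReal_natCast]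
      rw [ENNReal.toReal_ofReal (by positivity)]
      field_simp
    · intro e _ e' _ hne
      rw [Function.onFun, Set.disjoint_left]
      intro x h1 h2
      exact hne (Prod.ext (hinj (cell_eq hN h1.1 h2.1)) (hinj (cell_eq hN h1.2 h2.2)))
    · intro e _
      exact measurableSet_Ioo.prod measurableSet_Ioo
  refine ⟨⋃ e ∈ E, cell N (pos e.1) ×ˢ cell N (pos e.2),
    isOpen_biUnion fun e _ => isOpen_Ioo.prod isOpen_Ioo, ?_, ?_, ?_⟩
  · exact iUnion₂_subset fun e _ => prod_mono (cell_subset (hlt _)) (cell_subset (hlt _))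
  · obtain ⟨e, he⟩ : E.Nonempty := by
      rw [← Finset.card_pos]
      by_contra h0
      have : E.card = 0 := by omega
      rw [this] at hE1
      have : (0 : ℝ) < (N : ℝ) ^ 3 := by positivity
      simp at hE1
      linarith
    have hne : ∀ k, (cell N k).Nonempty := fun k =>
      nonempty_Ioo.mpr (div_lt_div_of_pos_right (by linarith) hN')
    exact ((hne _).prod (hne _)).mono (subset_biUnion_of_mem
      (u := fun e : G × G => cell N (pos e.1) ×ˢ cell N (pos e.2)) he)
  · intro x₁ x₂ y₁ y₂ hx hy h11 h12 h21 h22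
    simp only [mem_iUnion, mem_prod] at h11 h12 h21 h22
    obtain ⟨⟨g1, k1⟩, e11, a11, b11⟩ := h11
    obtain ⟨⟨g1', k2⟩, e12, a12, b12⟩ := h12
    obtain ⟨⟨g2, k1'⟩, e21, a21, b21⟩ := h21
    obtain ⟨⟨g2', k2'⟩, e22, a22, b22⟩ := h22
    obtain rfl : g1 = g1' := hinj (cell_eq hN a11 a12)
    obtain rfl : g2 = g2' := hinj (cell_eq hN a21 a22)
    obtain rfl : k1 = k1' := hinj (cell_eq hN b11 b21)
    obtain rfl : k2 = k2' := hinj (cell_eq hN b12 b22)
    obtain ⟨a, b, hab, ha, hb⟩ := hrect g1 g2 k1 k2 e11 e12 e21 e22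
    have h1 := cell_sub hN a11 a21 ha
    have h2 := cell_sub hN b11 b12 hb
    have hab' : (a : ℝ) * b ≤ N := by exact_mod_cast hab
    rw [hvol]
    calc (x₂ - x₁) * (y₂ - y₁) < a / N * (b / N) :=
          mul_lt_mul'' h1 h2 (by linarith) (by linarith)
      _ = a * b / (N : ℝ) ^ 2 := by field_simp
      _ ≤ N / (N : ℝ) ^ 2 := div_le_div_of_nonneg_right hab' (by positivity)
      _ = (N : ℝ) ^ 3 / (N : ℝ) ^ 4 := by field_simp
      _ ≤ c * (E.card : ℝ) ^ 2 / (N : ℝ) ^ 4 := div_le_div_of_nonneg_right hE1 (by positivity)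
      _ = _ := by field_simp

end Pool.Agent.MP_888de5_co

end
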